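import Pool.Agent.H961R2.Lev.Stubs

open MeasureTheory Set Filter Topology InnerProductSpace Complex

namespace H961Lev

theorem C9x_ind (N r : ℕ) : ind N r 0 = 1 := by
  unfold ind
  rw [if_pos]
  refine ⟨0, ?_⟩
  simp

theorem T_C9 : S_C9 := by
  intro N R v w l B hN hrel hl hls hv hw
  choose c ψ hc hv' hw' using hrel
  have hc0 : ∀ j, ∀ r ≤ R, 0 ≤ c j r := fun j r hr =>
    ((hc j r hr).1 0).1.trans ((hc j r hr).1 0).2
  have hcB : ∀ j, ∀ r ≤ R, c j r ≤ B := by
    intro j r hr
    have h1 := hw' j 0
    have h2 : ∑ r ∈ Finset.range (R + 1), c j r * ind N r 0 = ∑ r ∈ Finset.range (R + 1), c j r :=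
      Finset.sum_congr rfl fun r _ => by rw [C9x_ind, mul_one]
    rw [h2] at h1
    have h3 : c j r ≤ ∑ r ∈ Finset.range (R + 1), c j r :=
      Finset.single_le_sum (f := fun r => c j r)
        (fun i hi => hc0 j i (by have := Finset.mem_range.1 hi; omega))
        (Finset.mem_range.2 (by omega))
    have h4 := (abs_le.1 (hw j 0)).2
    linarith
  have hB : Summable fun j => l j * B := hls.mul_right B
  have sc : ∀ r ≤ R, Summable fun j => l j * c j r := fun r hr =>
    Summable.of_nonneg_of_le (fun j => mul_nonneg (hl j) (hc0 j r hr))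
      (fun j => mul_le_mul_of_nonneg_left (hcB j r hr) (hl j)) hB
  have sψ : ∀ r ≤ R, ∀ i, Summable fun j => l j * ψ j r i := fun r hr i =>
    Summable.of_nonneg_of_le (fun j => mul_nonneg (hl j) ((hc j r hr).1 i).1)
      (fun j => mul_le_mul_of_nonneg_left (((hc j r hr).1 i).2.trans (hcB j r hr)) (hl j)) hB
  have sv : ∀ i, Summable fun j => l j * v j i := fun i => by
    refine Summable.of_norm_bounded hB fun j => ?_
    rw [norm_mul, Real.norm_eq_abs, Real.norm_eq_abs, abs_of_nonneg (hl j)]
    exact mul_le_mul_of_nonneg_left (hv j i) (hl j)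
  have sw : ∀ i, Summable fun j => l j * w j i := fun i => by
    refine Summable.of_norm_bounded hB fun j => ?_
    rw [norm_mul, Real.norm_eq_abs, Real.norm_eq_abs, abs_of_nonneg (hl j)]
    exact mul_le_mul_of_nonneg_left (hw j i) (hl j)
  refine ⟨fun r => ∑' j, l j * c j r, fun r i => ∑' j, l j * ψ j r i, ?_, ?_, ?_⟩
  · intro r hr
    refine ⟨fun i => ⟨tsum_nonneg fun j => mul_nonneg (hl j) ((hc j r hr).1 i).1, ?_⟩, ?_⟩
    · exact Summable.tsum_le_tsum
        (fun j => mul_le_mul_of_nonneg_left ((hc j r hr).1 i).2 (hl j)) (sψ r hr i) (sc r hr)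
    · intro i
      show ∑ k ∈ Finset.range N, ∑' j, l j * ψ j r (i + k) ≤
        (2 * (r:ℝ) + 1) * ∑' j, l j * c j r
      rw [← Summable.tsum_finsetSum (s := Finset.range N) (f := fun (k : ℕ) (j : ℕ) => l j * ψ j r (i + k))
        (fun k _ => sψ r hr (i + k)), ← tsum_mul_left]
      refine Summable.tsum_le_tsum (fun j => ?_)
        (summable_sum (s := Finset.range N) (f := fun (k : ℕ) (j : ℕ) => l j * ψ j r (i + k))
          fun k _ => sψ r hr (i + k)) ((sc r hr).mul_left _)
      rw [← Finset.mul_sum]
      have := mul_le_mul_of_nonneg_left ((hc j r hr).2 i) (hl j)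
      calc _ ≤ _ := this
        _ = _ := by ring
  · intro i
    show ∑' j, l j * v j i ≤ _
    rw [← Summable.tsum_finsetSum
      (fun r hr => sψ r (by have := Finset.mem_range.1 hr; omega) i)]
    refine Summable.tsum_le_tsum (fun j => ?_) (sv i)
      (summable_sum fun r hr => sψ r (by have := Finset.mem_range.1 hr; omega) i)
    rw [← Finset.mul_sum]
    exact mul_le_mul_of_nonneg_left (hv' j i) (hl j)
  · intro i
    show _ ≤ ∑' j, l j * w j i
    have e : ∀ r ∈ Finset.range (R + 1), (∑' j, l j * c j r) * ind N r i =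
        ∑' j, l j * (c j r * ind N r i) := by
      intro r _
      rw [← tsum_mul_right]
      exact tsum_congr fun j => by ring
    have se : ∀ r ∈ Finset.range (R + 1), Summable fun j => l j * (c j r * ind N r i) := by
      intro r hr
      have := (sc r (by have := Finset.mem_range.1 hr; omega)).mul_right (ind N r i)
      refine this.congr fun j => by ring
    rw [Finset.sum_congr rfl e, ← Summable.tsum_finsetSum se]
    refine Summable.tsum_le_tsum (fun j => ?_) (summable_sum se) (sw i)
    rw [← Finset.mul_sum]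
    exact mul_le_mul_of_nonneg_left (hw' j i) (hl j)

end H961Lev
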