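import Pool.Agent.H961R2.Lev.Stubs

open MeasureTheory Set Filter Topology InnerProductSpace Complex

namespace H961Lev

/-- the kernel difference -/
noncomputable def L3k (s b t : ℝ) : ℝ := 1 / (t ^ 2 + s ^ 2) - 1 / (t ^ 2 + b ^ 2)

theorem L3k_eq {s b : ℝ} (hs : 0 < s) (hb : s < b) (t : ℝ) :
    L3k s b t = (b ^ 2 - s ^ 2) / ((t ^ 2 + s ^ 2) * (t ^ 2 + b ^ 2)) := by
  have h1 : 0 < t ^ 2 + s ^ 2 := by positivity
  have h2 : 0 < t ^ 2 + b ^ 2 := by have : 0 < b := hs.trans hb; positivity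
  unfold L3k
  field_simp
  ring

theorem L3k_nonneg {s b : ℝ} (hs : 0 < s) (hb : s < b) (t : ℝ) : 0 ≤ L3k s b t := by
  rw [L3k_eq hs hb]
  have hb0 : 0 < b := hs.trans hb
  have : 0 ≤ b ^ 2 - s ^ 2 := by nlinarith
  positivity

/-- `t'² + s² ≤ (1+ε)(t²+s²)` with `ε = 1/(Ns) + 1/(Ns)²`, if `|t - t'| ≤ 1/N`. -/
theorem L3_sq {s : ℝ} (hs : 0 < s) {N : ℕ} (hN : 0 < N) {t t' : ℝ} (h : |t' - t| ≤ 1 / N) :
    t' ^ 2 + s ^ 2 ≤ (1 + epsf s N) * (t ^ 2 + s ^ 2) := by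
  have hN' : (0:ℝ) < N := by exact_mod_cast hN
  set d : ℝ := t' - t with hd
  have ht' : t' = t + d := by rw [hd]; ring
  set q : ℝ := 1 / (N * s) with hq
  have hq0 : 0 < q := by rw [hq]; positivity
  have he : epsf s N = q + q ^ 2 := by
    unfold epsf
    rw [hq]
    field_simp
  have hqs : (1:ℝ) / N = q * s := by rw [hq]; field_simp
  rw [hqs] at h
  have h2 : d ^ 2 ≤ (q * s) ^ 2 := by
    have := sq_le_sq' (neg_le_of_abs_le h) (le_of_abs_le h)
    exact this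
  have h3 : 2 * t * d ≤ q * (t ^ 2 + s ^ 2) := by
    have h4 : 2 * t * d ≤ 2 * |t| * |d| := by
      have := le_abs_self (t * d)
      rw [abs_mul] at this
      linarith
    have h5 : 2 * |t| * |d| ≤ 2 * |t| * (q * s) :=
      mul_le_mul_of_nonneg_left h (by positivity)
    have h6 : 2 * |t| * s ≤ t ^ 2 + s ^ 2 := by
      have := sq_nonneg (|t| - s)
      have h7 := sq_abs t
      nlinarith
    have h8 := mul_le_mul_of_nonneg_left h6 hq0.le
    nlinarith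
  rw [he, ht']
  have h9 : q ^ 2 * s ^ 2 ≤ q ^ 2 * (t ^ 2 + s ^ 2) :=
    mul_le_mul_of_nonneg_left (by nlinarith [sq_nonneg t]) (by positivity)
  nlinarith

theorem epsf_anti {s b : ℝ} (hs : 0 < s) (hb : s < b) {N : ℕ} (hN : 0 < N) :
    epsf b N ≤ epsf s N := by
  have hN' : (0:ℝ) < N := by exact_mod_cast hN
  have hb0 := hs.trans hb
  unfold epsf
  have h1 : 1 / ((N:ℝ) * b) ≤ 1 / ((N:ℝ) * s) :=
    one_div_le_one_div_of_le (by positivity) (by nlinarith)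
  have h2 : 1 / ((N:ℝ) * b) ^ 2 ≤ 1 / ((N:ℝ) * s) ^ 2 :=
    one_div_le_one_div_of_le (by positivity)
      (pow_le_pow_left₀ (by positivity) (by nlinarith) 2)
  linarith

theorem epsf_nonneg {s : ℝ} (hs : 0 < s) (N : ℕ) : 0 ≤ epsf s N := by
  unfold epsf
  positivity

theorem L3_comp {s b : ℝ} (hs : 0 < s) (hb : s < b) {N : ℕ} (hN : 0 < N) {t t' : ℝ}
    (h : |t' - t| ≤ 1 / N) : L3k s b t ≤ (1 + epsf s N) ^ 2 * L3k s b t' := by
  have hb0 := hs.trans hb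
  have e1 := L3_sq hs hN h
  have e2 : t' ^ 2 + b ^ 2 ≤ (1 + epsf s N) * (t ^ 2 + b ^ 2) :=
    (L3_sq hb0 hN h).trans (mul_le_mul_of_nonneg_right (by linarith [epsf_anti hs hb hN])
      (by positivity))
  rw [L3k_eq hs hb, L3k_eq hs hb]
  have hc : 0 ≤ b ^ 2 - s ^ 2 := by nlinarith
  have p1 : 0 < t ^ 2 + s ^ 2 := by positivity
  have p2 : 0 < t ^ 2 + b ^ 2 := by positivity
  have p3 : 0 < t' ^ 2 + s ^ 2 := by positivity
  have p4 : 0 < t' ^ 2 + b ^ 2 := by positivity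
  have h3 : (t' ^ 2 + s ^ 2) * (t' ^ 2 + b ^ 2) ≤
      (1 + epsf s N) ^ 2 * ((t ^ 2 + s ^ 2) * (t ^ 2 + b ^ 2)) := by
    calc _ ≤ ((1 + epsf s N) * (t ^ 2 + s ^ 2)) * ((1 + epsf s N) * (t ^ 2 + b ^ 2)) :=
          mul_le_mul e1 e2 p4.le (by have := epsf_nonneg hs N; positivity)
      _ = _ := by ring
  rw [← mul_div_assoc, div_le_div_iff₀ (by positivity) (by positivity)]
  calc (b ^ 2 - s ^ 2) * ((t' ^ 2 + s ^ 2) * (t' ^ 2 + b ^ 2))
      ≤ (b ^ 2 - s ^ 2) * ((1 + epsf s N) ^ 2 * ((t ^ 2 + s ^ 2) * (t ^ 2 + b ^ 2))) :=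
        mul_le_mul_of_nonneg_left h3 hc
    _ = _ := by ring

theorem L3k_int {s b : ℝ} (hs : 0 < s) (hb : s < b) : Integrable (L3k s b) := by
  have h : ∀ a : ℝ, 0 < a → Integrable fun t : ℝ => 1 / (t ^ 2 + a ^ 2) := by
    intro a ha
    have h1 := (integrable_inv_one_add_sq.comp_mul_left' (g := fun x : ℝ => (1 + x ^ 2)⁻¹)
      (R := 1 / a) (by positivity)).const_mul (1 / a ^ 2)
    refine h1.congr (Eventually.of_forall fun t => ?_)
    show 1 / a ^ 2 * (1 + (1 / a * t) ^ 2)⁻¹ = 1 / (t ^ 2 + a ^ 2)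
    have : 0 < t ^ 2 + a ^ 2 := by positivity
    field_simp
    ring
  exact (h s hs).sub (h b (hs.trans hb))

/-- the cells -/
def L3C (N : ℕ) (m : ℤ) : Set ℝ := Ioc ((m - 1 / 2 : ℝ) / N) ((m + 1 / 2 : ℝ) / N)

theorem L3C_eq {N : ℕ} (hN : 0 < N) (m : ℤ) :
    L3C N m = Ioc (-1 / (2 * (N:ℝ)) + m • (1 / (N:ℝ))) (-1 / (2 * (N:ℝ)) + (m + 1) • (1 / (N:ℝ))) := by
  have hN' : (0:ℝ) < N := by exact_mod_cast hN
  unfold L3C
  congr 1
  · rw [zsmul_eq_mul]; field_simp; ring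
  · rw [zsmul_eq_mul]; push_cast; field_simp; ring

theorem L3_hasSum {N : ℕ} (hN : 0 < N) {f : ℝ → ℝ} (hf : Integrable f) :
    HasSum (fun m : ℤ => ∫ t in L3C N m, f t) (∫ t, f t) := by
  have hN' : (0:ℝ) < 1 / N := by positivity
  have h1 : (⋃ m : ℤ, L3C N m) = univ := by
    have := iUnion_Ioc_add_zsmul hN' (-1 / (2 * (N:ℝ)))
    rw [← this]
    exact iUnion_congr fun m => L3C_eq hN m
  have h2 : Pairwise (Function.onFun Disjoint fun m : ℤ => L3C N m) := by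
    have := pairwise_disjoint_Ioc_add_zsmul (-1 / (2 * (N:ℝ))) (1 / (N:ℝ))
    intro i j hij
    have h3 := this hij
    show Disjoint (L3C N i) (L3C N j)
    rw [L3C_eq hN, L3C_eq hN]
    exact h3
  have h3 := hasSum_integral_iUnion (μ := volume) (f := f) (s := fun m : ℤ => L3C N m)
    (fun m => measurableSet_Ioc) h2 (by rw [h1]; exact hf.integrableOn)
  rw [h1, setIntegral_univ] at h3
  exact h3

theorem L3_cell {U : ℂ → ℝ} {N : ℕ} (hN : 0 < N) (m : ℤ) :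
    ∫ t in L3C N m, U (t : ℂ) = cellU U N m / N := by
  have hN' : (0:ℝ) < N := by exact_mod_cast hN
  unfold cellU L3C
  rw [intervalIntegral.integral_of_le (by gcongr; linarith)]
  field_simp

theorem L3_near {N : ℕ} (hN : 0 < N) {m : ℤ} {x : ℝ} (hx : x ∈ L3C N m) :
    |(m:ℝ) / N - x| ≤ 1 / N := by
  have hN' : (0:ℝ) < N := by exact_mod_cast hN
  have h1 : ((m:ℝ) - 1 / 2) / N < x := hx.1
  have h2 : x ≤ ((m:ℝ) + 1 / 2) / N := hx.2
  have e1 : ((m:ℝ) - 1 / 2) / N = m / N - 1 / 2 * (1 / N) := by ring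
  have e2 : ((m:ℝ) + 1 / 2) / N = m / N + 1 / 2 * (1 / N) := by ring
  rw [e1] at h1
  rw [e2] at h2
  have : (0:ℝ) < 1 / N := by positivity
  rw [abs_le]
  constructor <;> linarith

theorem L3_kap {s b : ℝ} (hs : 0 < s) (hb : s < b) {N : ℕ} (hN : 0 < N) (m : ℤ) :
    1 / ((s * N) ^ 2 + (m : ℝ) ^ 2) - 1 / ((b * N) ^ 2 + (m : ℝ) ^ 2) =
      L3k s b ((m:ℝ) / N) / N ^ 2 := by
  have hN' : (0:ℝ) < N := by exact_mod_cast hN
  have hb0 := hs.trans hb
  unfold L3k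
  have h1 : 0 < (s * N) ^ 2 + (m : ℝ) ^ 2 := by positivity
  have h2 : 0 < (b * N) ^ 2 + (m : ℝ) ^ 2 := by positivity
  have h3 : ((m:ℝ) / N) ^ 2 + s ^ 2 = ((s * N) ^ 2 + (m : ℝ) ^ 2) / N ^ 2 := by field_simp; ring
  have h4 : ((m:ℝ) / N) ^ 2 + b ^ 2 = ((b * N) ^ 2 + (m : ℝ) ^ 2) / N ^ 2 := by field_simp; ring
  rw [h3, h4]
  field_simp

theorem L3_vol {N : ℕ} (hN : 0 < N) (m : ℤ) : (volume (L3C N m)).toReal = 1 / N := by
  have hN' : (0:ℝ) < N := by exact_mod_cast hN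
  unfold L3C
  rw [Real.volume_Ioc]
  have : ((m:ℝ) + 1 / 2) / N - ((m:ℝ) - 1 / 2) / N = 1 / N := by ring
  rw [this, ENNReal.toReal_ofReal (by positivity)]

theorem L3_main {U : ℂ → ℝ} {B : ℝ} (hU : Continuous U) (hUB : ∀ x : ℝ, 0 ≤ U x ∧ U x ≤ B)
    {s b : ℝ} (hs : 0 < s) (hb : s < b) {N : ℕ} (hN : 0 < N) :
    (∫ t : ℝ, L3k s b t * U t) ≤ (1 + epsf s N) ^ 2 *
      (N * ∑' m : ℤ, (1 / ((s * N) ^ 2 + (m : ℝ) ^ 2) - 1 / ((b * N) ^ 2 + (m : ℝ) ^ 2)) *
        cellU U N m) := by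
  have hN' : (0:ℝ) < N := by exact_mod_cast hN
  have hB : 0 ≤ B := (hUB 0).1.trans (hUB 0).2
  have hUc : Continuous fun t : ℝ => U (t : ℂ) := hU.comp Complex.continuous_ofReal
  have hki := L3k_int hs hb
  have hkU : Integrable fun t : ℝ => L3k s b t * U (t : ℂ) := by
    refine hki.mul_bdd (c := B) hUc.aestronglyMeasurable (Eventually.of_forall fun t => ?_)
    rw [Real.norm_eq_abs, abs_of_nonneg (hUB t).1]
    exact (hUB t).2
  have e0 : 0 ≤ epsf s N := epsf_nonneg hs N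
  set E : ℝ := (1 + epsf s N) ^ 2 with hE
  have hE0 : 0 < E := by rw [hE]; positivity
  -- summability of k(m/N)
  have hks : Summable fun m : ℤ => L3k s b ((m:ℝ) / N) := by
    have h1 := ((L3_hasSum hN hki).summable.mul_left (E * N))
    refine Summable.of_nonneg_of_le (fun m => L3k_nonneg hs hb _) (fun m => ?_) h1
    have h2 : ∫ t in L3C N m, L3k s b ((m:ℝ) / N) ≤ ∫ t in L3C N m, E * L3k s b t := by
      refine setIntegral_mono_on ?_ (hki.integrableOn.const_mul E) measurableSet_Ioc fun x hx => ?_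
      · exact integrableOn_const (by unfold L3C; simp)
      · exact L3_comp hs hb hN (by rw [abs_sub_comm]; exact L3_near hN hx)
    rw [setIntegral_const, integral_const_mul, measureReal_def, L3_vol hN, smul_eq_mul] at h2
    calc L3k s b ((m:ℝ) / N) = N * (1 / N * L3k s b ((m:ℝ) / N)) := by field_simp
      _ ≤ N * (E * ∫ t in L3C N m, L3k s b t) := mul_le_mul_of_nonneg_left h2 hN'.le
      _ = _ := by ring
  have hcU : ∀ m, 0 ≤ cellU U N m ∧ cellU U N m ≤ B := by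
    intro m
    have h1 := L3_cell (U := U) hN m
    have h2 : cellU U N m = N * ∫ t in L3C N m, U (t : ℂ) := by rw [h1]; field_simp
    have hi : IntegrableOn (fun t : ℝ => U (t : ℂ)) (L3C N m) :=
      (hUc.integrableOn_Icc (a := ((m - 1 / 2 : ℝ) / N)) (b := ((m + 1 / 2 : ℝ) / N))).mono_set
        Ioc_subset_Icc_self
    constructor
    · rw [h2]
      exact mul_nonneg hN'.le (integral_nonneg fun t => (hUB t).1)
    · have h3 : ∫ t in L3C N m, U (t : ℂ) ≤ ∫ t in L3C N m, B :=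
        setIntegral_mono_on hi (integrableOn_const (by unfold L3C; simp)) measurableSet_Ioc
          fun x _ => (hUB x).2
      rw [setIntegral_const, measureReal_def, L3_vol hN, smul_eq_mul] at h3
      rw [h2]
      calc (N:ℝ) * ∫ t in L3C N m, U (t : ℂ) ≤ N * (1 / N * B) :=
            mul_le_mul_of_nonneg_left h3 hN'.le
        _ = B := by field_simp
  have hkc : Summable fun m : ℤ => L3k s b ((m:ℝ) / N) * cellU U N m := by
    refine Summable.of_nonneg_of_le (fun m => mul_nonneg (L3k_nonneg hs hb _) (hcU m).1)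
      (fun m => mul_le_mul_of_nonneg_left (hcU m).2 (L3k_nonneg hs hb _)) (hks.mul_right B)
  have hmain : ∀ m, ∫ t in L3C N m, L3k s b t * U (t : ℂ) ≤
      E / N * (L3k s b ((m:ℝ) / N) * cellU U N m) := by
    intro m
    have hi : IntegrableOn (fun t : ℝ => U (t : ℂ)) (L3C N m) :=
      (hUc.integrableOn_Icc (a := ((m - 1 / 2 : ℝ) / N)) (b := ((m + 1 / 2 : ℝ) / N))).mono_set
        Ioc_subset_Icc_self
    have h2 : ∫ t in L3C N m, L3k s b t * U (t : ℂ) ≤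
        ∫ t in L3C N m, (E * L3k s b ((m:ℝ) / N)) * U (t : ℂ) := by
      refine setIntegral_mono_on hkU.integrableOn (hi.const_mul _) measurableSet_Ioc fun x hx => ?_
      exact mul_le_mul_of_nonneg_right (L3_comp hs hb hN (L3_near hN hx)) (hUB x).1
    rw [integral_const_mul, L3_cell hN] at h2
    calc _ ≤ _ := h2
      _ = _ := by ring
  have hsum := L3_hasSum hN hkU
  rw [← hsum.tsum_eq]
  calc ∑' m : ℤ, ∫ t in L3C N m, L3k s b t * U (t : ℂ)
      ≤ ∑' m : ℤ, E / N * (L3k s b ((m:ℝ) / N) * cellU U N m) :=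
        Summable.tsum_le_tsum hmain hsum.summable (hkc.mul_left _)
    _ = E * (N * ∑' m : ℤ, (1 / ((s * N) ^ 2 + (m : ℝ) ^ 2) - 1 / ((b * N) ^ 2 + (m : ℝ) ^ 2)) *
        cellU U N m) := by
        have : ∀ m : ℤ, (1 / ((s * N) ^ 2 + (m : ℝ) ^ 2) - 1 / ((b * N) ^ 2 + (m : ℝ) ^ 2)) *
            cellU U N m = (1 / N ^ 2) * (L3k s b ((m:ℝ) / N) * cellU U N m) := by
          intro m
          rw [L3_kap hs hb hN]
          ring
        simp_rw [this]
        rw [tsum_mul_left, tsum_mul_left]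
        field_simp

theorem T_L3 : S_L3 := by
  intro U B hU hUB s b e hs hb he
  have hb0 := hs.trans hb
  set J : ℝ := ∫ t : ℝ, L3k s b t * U t with hJ
  have hJ0 : 0 ≤ J := integral_nonneg fun t => mul_nonneg (L3k_nonneg hs hb t) (hUB t).1
  have ht : Tendsto (fun N : ℕ => epsf s N) atTop (𝓝 0) := by
    have h1 : Tendsto (fun N : ℕ => ((N:ℝ) * s)) atTop atTop :=
      tendsto_natCast_atTop_atTop.atTop_mul_const hs
    have h2 : Tendsto (fun N : ℕ => 1 / ((N:ℝ) * s)) atTop (𝓝 0) := by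
      have h := h1.inv_tendsto_atTop
      exact h.congr fun N => (one_div _).symm
    have h3 := h2.add (h2.pow 2)
    simp only [ne_eq, OfNat.ofNat_ne_zero, not_false_eq_true, zero_pow, add_zero] at h3
    refine h3.congr fun N => ?_
    unfold epsf
    rw [div_pow, one_pow]
  have ht2 : Tendsto (fun N : ℕ => ((1 + epsf s N) ^ 2 - 1) * J) atTop (𝓝 0) := by
    have := (((ht.const_add 1).pow 2).sub_const 1).mul_const J
    simpa using this
  have hev := (ht2.eventually (gt_mem_nhds he)).and (eventually_gt_atTop 0)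
  obtain ⟨N₀, hN₀⟩ := eventually_atTop.1 hev
  refine ⟨N₀, fun N hN => ?_⟩
  obtain ⟨h1, h2⟩ := hN₀ N hN
  have h3 := L3_main hU hUB hs hb h2
  rw [← hJ] at h3
  have h4 : 0 ≤ epsf s N := epsf_nonneg hs N
  show J ≤ _
  generalize (N:ℝ) * ∑' m : ℤ, (1 / ((s * N) ^ 2 + (m : ℝ) ^ 2) - 1 / ((b * N) ^ 2 + (m : ℝ) ^ 2)) *
        cellU U N m = S at h3 ⊢
  set x : ℝ := (1 + epsf s N) ^ 2 - 1 with hx
  have hx0 : 0 ≤ x := by rw [hx]; nlinarith
  have h5 : (1 + epsf s N) ^ 2 = 1 + x := by rw [hx]; ring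
  rw [h5] at h3
  have h6 : (1 + x) * (J - x * J) ≤ (1 + x) * S := by
    have : (1 + x) * (J - x * J) = J - x ^ 2 * J := by ring
    rw [this]
    have : 0 ≤ x ^ 2 * J := by positivity
    linarith
  have h7 : J - x * J ≤ S := le_of_mul_le_mul_left h6 (by linarith)
  linarith

end H961Lev
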